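import Pool.Agent.Work.MP_807b32_lc.InP.Nd

/-!
A language in P that needs nondeterministic Boolean branching programs of exponential size when
the length is linear.
-/

namespace Pool.Agent.Results.MP_807b32_lc.NondetLinear

open Pool.Agent.Work.MP_807b32_lc.TS

theorem result : ∃ L ∈ N68a2faeb.P, ∀ k : ℕ, ∃ c : ℕ, ∀ (n : ℕ) (S : Type) [Fintype S]
    (B : NBP (Fin n) S), B.ComputesIn (fun w => L (List.ofFn w) = true) (k * n) →
    n ≤ c * (Nat.clog 2 (Fintype.card S) + 1) :=
  Pool.Agent.Work.MP_807b32_lc.InP.nd_inP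

end Pool.Agent.Results.MP_807b32_lc.NondetLinear
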